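import Pool.Agent.helper66.FB.Spec2

/-!
Module HX: Dirichlet form, harmonic functions, and the Rayleigh comparison.
-/

set_option autoImplicit false

open scoped BigOperators

namespace Pool.Agent.helper66.FB

open Finset
open Pool.Agent.helper72.UT (IsFor dep pth rt fors Reg lz PathTo)
open Pool.Agent.helper20.HP (ind HW W Par cc run lel lst lazyP tmix ustE height vol Setup CZ CP IsKer Zq)

variable {V : Type} [Fintype V] [DecidableEq V]

theorem HX_green (K : HW V) (f g : V → ℝ) :
    dir K f g = ∑ x, g x * (f x - ∑ z, K.p x z * f z) := by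
  have e1 : ∑ x, ∑ z, K.p x z * (f x * g x) = ∑ x, f x * g x := by
    refine Finset.sum_congr rfl fun x _ => ?_
    rw [← Finset.sum_mul, K.sum_one, one_mul]
  have e2 : ∑ x, ∑ z, K.p x z * (f z * g z) = ∑ x, f x * g x := by
    rw [Finset.sum_comm]
    refine Finset.sum_congr rfl fun z _ => ?_
    rw [← Finset.sum_mul]
    have : ∑ x, K.p x z = 1 := by
      rw [← K.sum_one z]
      exact Finset.sum_congr rfl fun x _ => K.symm x z
    rw [this, one_mul]
  have e3 : ∑ x, ∑ z, K.p x z * (f x * g z) = ∑ x, ∑ z, K.p x z * (f z * g x) := by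
    rw [Finset.sum_comm]
    refine Finset.sum_congr rfl fun z _ => Finset.sum_congr rfl fun x _ => ?_
    rw [K.symm x z]
  have e4 : ∑ x, g x * (f x - ∑ z, K.p x z * f z)
      = ∑ x, f x * g x - ∑ x, ∑ z, K.p x z * (f z * g x) := by
    rw [← Finset.sum_sub_distrib]
    refine Finset.sum_congr rfl fun x _ => ?_
    rw [mul_sub, Finset.mul_sum]
    congr 1
    · ring
    · exact Finset.sum_congr rfl fun z _ => by ring
  have e5 : ∑ x, ∑ z, K.p x z * ((f x - f z) * (g x - g z))
      = ∑ x, ∑ z, K.p x z * (f x * g x) - ∑ x, ∑ z, K.p x z * (f x * g z)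
        - ∑ x, ∑ z, K.p x z * (f z * g x) + ∑ x, ∑ z, K.p x z * (f z * g z) := by
    rw [← Finset.sum_sub_distrib, ← Finset.sum_sub_distrib, ← Finset.sum_add_distrib]
    refine Finset.sum_congr rfl fun x _ => ?_
    rw [← Finset.sum_sub_distrib, ← Finset.sum_sub_distrib, ← Finset.sum_add_distrib]
    exact Finset.sum_congr rfl fun z _ => by ring
  unfold dir
  rw [e5, e4, e1, e2, e3]
  ring

theorem HX_symm (K : HW V) (f g : V → ℝ) : dir K f g = dir K g f := by
  unfold dir
  congr 1
  exact Finset.sum_congr rfl fun x _ => Finset.sum_congr rfl fun z _ => by ring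

theorem HX_expand (K : HW V) (f g : V → ℝ) (c : ℝ) :
    dir K (fun x => f x + c * g x) (fun x => f x + c * g x)
      = dir K f f + 2 * c * dir K f g + c ^ 2 * dir K g g := by
  unfold dir
  have e : ∑ x, ∑ z, K.p x z * ((f x + c * g x - (f z + c * g z)) * (f x + c * g x - (f z + c * g z)))
      = ∑ x, ∑ z, K.p x z * ((f x - f z) * (f x - f z))
        + 2 * c * ∑ x, ∑ z, K.p x z * ((f x - f z) * (g x - g z))
        + c ^ 2 * ∑ x, ∑ z, K.p x z * ((g x - g z) * (g x - g z)) := by
    rw [Finset.mul_sum, Finset.mul_sum, ← Finset.sum_add_distrib, ← Finset.sum_add_distrib]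
    refine Finset.sum_congr rfl fun x _ => ?_
    rw [Finset.mul_sum, Finset.mul_sum, ← Finset.sum_add_distrib, ← Finset.sum_add_distrib]
    exact Finset.sum_congr rfl fun z _ => by ring
  rw [e]
  ring

theorem HX_nonneg (K : HW V) (f : V → ℝ) : 0 ≤ dir K f f := by
  unfold dir
  refine div_nonneg (Finset.sum_nonneg fun x _ => Finset.sum_nonneg fun z _ => ?_) (by norm_num)
  exact mul_nonneg (K.nonneg x z) (mul_self_nonneg _)

theorem HX_const {G : SimpleGraph V} {d : ℕ} (K : HW V) (hG : Reg G d) (hK : K.p = lz G d)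
    (f : V → ℝ) (h : dir K f f = 0) (x y : V) : f x = f y := by
  have h1 : ∑ x, ∑ z, K.p x z * ((f x - f z) * (f x - f z)) = 0 := by
    unfold dir at h
    linarith
  have h2 : ∀ x z, K.p x z * ((f x - f z) * (f x - f z)) = 0 := by
    intro x z
    have h3 := (Finset.sum_eq_zero_iff_of_nonneg (fun x _ => Finset.sum_nonneg fun z _ =>
      mul_nonneg (K.nonneg x z) (mul_self_nonneg (f x - f z)))).mp h1 x (Finset.mem_univ x)
    exact (Finset.sum_eq_zero_iff_of_nonneg (fun z _ =>
      mul_nonneg (K.nonneg x z) (mul_self_nonneg (f x - f z)))).mp h3 z (Finset.mem_univ z)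
  have hadj : ∀ x z, G.Adj x z → f x = f z := by
    intro x z hxz
    have hp : 0 < K.p x z := by
      rw [hK]
      unfold lz
      rw [if_neg hxz.ne, if_pos hxz, zero_add]
      have : (0 : ℝ) < d := by exact_mod_cast hG.pos
      positivity
    have := h2 x z
    rcases mul_eq_zero.mp this with h | h
    · exact absurd h hp.ne'
    · have := mul_self_eq_zero.mp h
      linarith
  obtain ⟨w⟩ := hG.conn.preconnected x y
  induction w with
  | nil => rfl
  | cons h _ ih => exact (hadj _ _ h).trans ih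

/-- a function which vanishes on a nonempty set and is harmonic elsewhere is zero -/
theorem HX_zero {G : SimpleGraph V} {d : ℕ} (K : HW V) (hG : Reg G d) (hK : K.p = lz G d)
    (D : Finset V) (hD : D.Nonempty) (h : V → ℝ) (h0 : ∀ x ∈ D, h x = 0)
    (hh : ∀ x, x ∉ D → h x - ∑ z, K.p x z * h z = 0) : ∀ x, h x = 0 := by
  have h1 : dir K h h = 0 := by
    rw [HX_green]
    refine Finset.sum_eq_zero fun x _ => ?_
    by_cases hx : x ∈ D
    · rw [h0 x hx, zero_mul]
    · rw [hh x hx, mul_zero]
  obtain ⟨y, hy⟩ := hD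
  intro x
  rw [HX_const K hG hK h h1 x y, h0 y hy]

theorem HX_exists {G : SimpleGraph V} {d : ℕ} (K : HW V) (hG : Reg G d) (hK : K.p = lz G d)
    (A R : Finset V) (hd : Disjoint A R) (hn : (A ∪ R).Nonempty) : ∃ u, Har K A R u := by
  classical
  let L : (V → ℝ) →ₗ[ℝ] (V → ℝ) :=
    { toFun := fun u x => if x ∈ A ∪ R then u x else u x - ∑ z, K.p x z * u z
      map_add' := by
        intro u v
        funext x
        by_cases hx : x ∈ A ∪ R
        · simp only [if_pos hx, Pi.add_apply]
        · simp only [if_neg hx, Pi.add_apply, mul_add, Finset.sum_add_distrib]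
          ring
      map_smul' := by
        intro c u
        funext x
        by_cases hx : x ∈ A ∪ R
        · simp only [if_pos hx, Pi.smul_apply, RingHom.id_apply]
        · simp only [if_neg hx, Pi.smul_apply, RingHom.id_apply, smul_eq_mul]
          rw [mul_sub, Finset.mul_sum]
          congr 1
          exact Finset.sum_congr rfl fun z _ => by ring }
  have hL : ∀ u x, L u x = if x ∈ A ∪ R then u x else u x - ∑ z, K.p x z * u z := fun _ _ => rfl
  have hinj : Function.Injective L := by
    rw [← LinearMap.ker_eq_bot, LinearMap.ker_eq_bot']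
    intro u hu
    funext x
    refine HX_zero K hG hK (A ∪ R) hn u ?_ ?_ x
    · intro x hx
      have := congrFun hu x
      rw [hL, if_pos hx] at this
      exact this
    · intro x hx
      have := congrFun hu x
      rw [hL, if_neg hx] at this
      exact this
  obtain ⟨u, hu⟩ := (LinearMap.injective_iff_surjective.mp hinj) (fun x => if x ∈ A then 1 else 0)
  refine ⟨u, ⟨?_, ?_, ?_⟩⟩
  · intro x hx
    have := congrFun hu x
    rw [hL, if_pos (Finset.mem_union_left R hx)] at this
    simpa [hx] using this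
  · intro x hx
    have := congrFun hu x
    rw [hL, if_pos (Finset.mem_union_right A hx)] at this
    have hxA : x ∉ A := fun h => (Finset.disjoint_left.mp hd h) hx
    simpa [hxA] using this
  · intro x hxA hxR
    have := congrFun hu x
    have hx : x ∉ A ∪ R := by simp [hxA, hxR]
    rw [hL, if_neg hx] at this
    simp only [if_neg hxA] at this
    linarith

theorem HX_unique {G : SimpleGraph V} {d : ℕ} (K : HW V) (hG : Reg G d) (hK : K.p = lz G d)
    (A R : Finset V) (hn : (A ∪ R).Nonempty) (u v : V → ℝ) (hu : Har K A R u)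
    (hv : Har K A R v) : u = v := by
  funext x
  have := HX_zero K hG hK (A ∪ R) hn (fun x => u x - v x) ?_ ?_ x
  · linarith
  · intro x hx
    rcases Finset.mem_union.mp hx with h | h
    · simp only [hu.one x h, hv.one x h, sub_self]
    · simp only [hu.zero x h, hv.zero x h, sub_self]
  · intro x hx
    rw [Finset.mem_union, not_or] at hx
    have e1 := hu.harm x hx.1 hx.2
    have e2 := hv.harm x hx.1 hx.2
    simp only [mul_sub, Finset.sum_sub_distrib]
    linarith

/-- orthogonality -/
theorem HX_orth (K : HW V) (A R : Finset V) (u h : V → ℝ) (hu : Har K A R u)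
    (hA : ∀ x ∈ A, h x = 0) (hR : ∀ x ∈ R, h x = 0) : dir K u h = 0 := by
  rw [HX_green]
  refine Finset.sum_eq_zero fun x _ => ?_
  by_cases h1 : x ∈ A
  · rw [hA x h1, zero_mul]
  by_cases h2 : x ∈ R
  · rw [hR x h2, zero_mul]
  rw [← hu.harm x h1 h2, sub_self, mul_zero]

theorem HX_min (K : HW V) (A R : Finset V) (u v : V → ℝ) (hu : Har K A R u)
    (hA : ∀ x ∈ A, v x = 1) (hR : ∀ x ∈ R, v x = 0) : dir K u u ≤ dir K v v := by
  have h1 := HX_expand K u (fun x => v x - u x) 1
  have h2 : (fun x => u x + 1 * (v x - u x)) = v := by funext x; ring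
  rw [h2] at h1
  have h3 : dir K u (fun x => v x - u x) = 0 := by
    refine HX_orth K A R u _ hu ?_ ?_
    · intro x hx; simp only [hA x hx, hu.one x hx, sub_self]
    · intro x hx; simp only [hR x hx, hu.zero x hx, sub_self]
  have h4 := HX_nonneg K (fun x => v x - u x)
  rw [h3] at h1
  linarith

theorem HX_pos {G : SimpleGraph V} {d : ℕ} (K : HW V) (hG : Reg G d) (hK : K.p = lz G d)
    (A R : Finset V) (u : V → ℝ) (hu : Har K A R u) (hA : A.Nonempty) (hR : R.Nonempty) :
    0 < dir K u u := by
  refine lt_of_le_of_ne (HX_nonneg K u) (Ne.symm ?_)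
  intro h
  obtain ⟨x, hx⟩ := hA
  obtain ⟨y, hy⟩ := hR
  have := HX_const K hG hK u h x y
  rw [hu.one x hx, hu.zero y hy] at this
  exact one_ne_zero this

theorem HX : HX_stmt := by
  intro V _ _ G d K hG hK
  exact ⟨HX_green K, HX_symm K, HX_exists K hG hK, HX_unique K hG hK, HX_min K,
    HX_pos K hG hK⟩

theorem RAY : RAY_stmt := by
  intro V _ _ G d K hG hK B C y hB hC hBC hyB hyC u₁ u₂ u₃ u₄ h1 h2 h3 h4
  have hα : 0 < dir K u₃ u₃ := HX_pos K hG hK {y} (B ∪ C) u₃ h3 ⟨y, by simp⟩
    (hB.mono Finset.subset_union_left)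
  have hβ : 0 < dir K u₂ u₂ := HX_pos K hG hK B (insert y C) u₂ h2 hB ⟨y, by simp⟩
  set α := dir K u₃ u₃ with hαd
  set β := dir K u₂ u₂ with hβd
  set s := dir K u₃ u₂ with hs
  have h3y : u₃ y = 1 := h3.one y (by simp)
  have h2y : u₂ y = 0 := h2.zero y (by simp)
  have h3B : ∀ x ∈ B, u₃ x = 0 := fun x hx => h3.zero x (Finset.mem_union_left C hx)
  have h3C : ∀ x ∈ C, u₃ x = 0 := fun x hx => h3.zero x (Finset.mem_union_right B hx)
  have h2B : ∀ x ∈ B, u₂ x = 1 := h2.one
  have h2C : ∀ x ∈ C, u₂ x = 0 := fun x hx => h2.zero x (Finset.mem_insert_of_mem hx)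
  have m1 : dir K u₁ u₁ ≤ α - s ^ 2 / β := by
    have e := HX_min K {y} C u₁ (fun x => u₃ x + (-(s / β)) * u₂ x) h1 ?_ ?_
    · rw [HX_expand] at e
      have e2 : α + 2 * (-(s / β)) * s + (-(s / β)) ^ 2 * β = α - s ^ 2 / β := by
        field_simp
        ring
      linarith
    · intro x hx
      rw [Finset.mem_singleton] at hx
      subst hx
      rw [h3y, h2y]; ring
    · intro x hx
      simp only [h3C x hx, h2C x hx]
      ring
  -- values of the Laplacian at `y`
  have g1 : α = u₃ y - ∑ z, K.p y z * u₃ z := by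
    rw [hαd, HX_green]
    rw [Finset.sum_eq_single y]
    · rw [h3y, one_mul]
    · intro x _ hxy
      by_cases hx : x ∈ B ∪ C
      · rw [h3.zero x hx, zero_mul]
      · rw [← h3.harm x (by simpa using hxy) hx, sub_self, mul_zero]
    · intro h; exact absurd (Finset.mem_univ y) h
  have g2 : s = u₂ y - ∑ z, K.p y z * u₂ z := by
    rw [hs, HX_symm, HX_green]
    rw [Finset.sum_eq_single y]
    · rw [h3y, one_mul]
    · intro x _ hxy
      by_cases hx : x ∈ B ∪ C
      · rw [h3.zero x hx, zero_mul]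
      · rw [Finset.mem_union, not_or] at hx
        rw [← h2.harm x hx.1 (by simp [hxy, hx.2]), sub_self, mul_zero]
    · intro h; exact absurd (Finset.mem_univ y) h
  have e4 : u₄ = fun x => u₂ x + (-(s / α)) * u₃ x := by
    refine HX_unique K hG hK B C (hB.mono Finset.subset_union_left) u₄ _ h4 ⟨?_, ?_, ?_⟩
    · intro x hx
      simp only [h2B x hx, h3B x hx]; ring
    · intro x hx
      simp only [h2C x hx, h3C x hx]; ring
    · intro x hxB hxC
      have hlin : ∑ z, K.p x z * (u₂ z + (-(s / α)) * u₃ z)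
          = ∑ z, K.p x z * u₂ z + (-(s / α)) * ∑ z, K.p x z * u₃ z := by
        rw [Finset.mul_sum, ← Finset.sum_add_distrib]
        exact Finset.sum_congr rfl fun z _ => by ring
      change u₂ x + (-(s / α)) * u₃ x = ∑ z, K.p x z * (u₂ z + (-(s / α)) * u₃ z)
      rw [hlin]
      by_cases hxy : x = y
      · subst hxy
        have k1 : ∑ z, K.p x z * u₃ z = u₃ x - α := by linarith
        have k2 : ∑ z, K.p x z * u₂ z = u₂ x - s := by linarith
        rw [k1, k2]
        field_simp
        ring
      · rw [← h2.harm x hxB (by simp [hxy, hxC]), ← h3.harm x (by simpa using hxy) (by simp [hxB, hxC])]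
  have m4 : dir K u₄ u₄ = β - s ^ 2 / α := by
    rw [e4, HX_expand, HX_symm K u₂ u₃]
    rw [← hs, ← hαd, ← hβd]
    field_simp
    ring
  rw [m4]
  have l1 : dir K u₁ u₁ * β ≤ (α - s ^ 2 / β) * β := mul_le_mul_of_nonneg_right m1 hβ.le
  have l2 : (α - s ^ 2 / β) * β = α * β - s ^ 2 := by field_simp
  have l3 : α * (β - s ^ 2 / α) = α * β - s ^ 2 := by field_simp
  linarith

end Pool.Agent.helper66.FB
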